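import Mathlib

set_option autoImplicit false
open MeasureTheory ProbabilityTheory Filter Set
open scoped ENNReal Pointwise Topology

namespace Pool.Agent.N662.FP

/-- the passage times of the lattice paths from `a` to `v` in the environment `x` -/
def PS (x : Sym2 (ℤ × ℤ) → ℝ) (a v : ℤ × ℤ) : Set ℝ :=
  {s : ℝ | ∃ n : ℕ, ∃ p : ℕ → ℤ × ℤ, p 0 = a ∧ p n = v ∧
    (∀ i < n, |(p (i + 1)).1 - (p i).1| + |(p (i + 1)).2 - (p i).2| = 1) ∧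
    s = ∑ i ∈ Finset.range n, x s(p i, p (i + 1))}

/-- the passage time from `a` to `v` in the environment `x` -/
noncomputable def D (x : Sym2 (ℤ × ℤ) → ℝ) (a v : ℤ × ℤ) : ℝ := sInf (PS x a v)

/-- the environment at the outcome `ω` -/
def env {Ω : Type} (X : Sym2 (ℤ × ℤ) → Ω → ℝ) (ω : Ω) : Sym2 (ℤ × ℤ) → ℝ := fun e => X e ω

/-- independent Exp(1) edge weights -/
structure Iid {Ω : Type} [MeasureSpace Ω] (X : Sym2 (ℤ × ℤ) → Ω → ℝ) : Prop where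
  meas : ∀ e, Measurable (X e)
  ind : iIndepFun X (volume : Measure Ω)
  law : ∀ e, Measure.map (X e) (volume : Measure Ω) = expMeasure 1

/-- the fattened cluster at time `t`, for the passage times `T` -/
def Fat (T : ℤ × ℤ → ℝ) (t : ℝ) : Set (ℝ × ℝ) :=
  {x : ℝ × ℝ | ∃ v : ℤ × ℤ, T v ≤ t ∧ |x.1 - (v.1 : ℝ)| ≤ 1 / 2 ∧ |x.2 - (v.2 : ℝ)| ≤ 1 / 2}

/-- the inner event: a part of `(1 - t ^ (-κ)) t` times the limit shape is missed -/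
def Bad {Ω : Type} (T : Ω → ℤ × ℤ → ℝ) (μ : Seminorm ℝ (ℝ × ℝ)) (κ t : ℝ) : Set Ω :=
  {ω | ¬ (((1 - t ^ (-κ)) * t) • {x : ℝ × ℝ | μ x ≤ 1} ⊆ Fat (T ω) t)}

/-- a lattice point as a point of the plane -/
def em (v : ℤ × ℤ) : ℝ × ℝ := ((v.1 : ℝ), (v.2 : ℝ))

/-! ### leaves -/

/-- Prekopa-Leindler for the product of `n` exponential laws, for sets, midpoint form -/
def S_PLE : Prop := ∀ (n : ℕ) (A B C : Set (Fin n → ℝ)), MeasurableSet A → MeasurableSet B →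
  MeasurableSet C → (∀ a ∈ A, ∀ b ∈ B, (fun i => (a i + b i) / 2) ∈ C) →
  (Measure.pi fun _ : Fin n => expMeasure 1) A * (Measure.pi fun _ : Fin n => expMeasure 1) B ≤
    ((Measure.pi fun _ : Fin n => expMeasure 1) C) ^ 2

/-- the edges of the paths of length `≤ N` from `a` lie in a finite set -/
def S_FIN : Prop := ∀ (a : ℤ × ℤ) (N : ℕ), ∃ F : Finset (Sym2 (ℤ × ℤ)), ∀ n ≤ N, ∀ p : ℕ → ℤ × ℤ,
  p 0 = a → (∀ i < n, |(p (i + 1)).1 - (p i).1| + |(p (i + 1)).2 - (p i).2| = 1) →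
  ∀ i < n, s(p i, p (i + 1)) ∈ F

/-- all paths of length `≤ N` from `a` to `v` have passage time `≥ t` -/
def Win (x : Sym2 (ℤ × ℤ) → ℝ) (a v : ℤ × ℤ) (N : ℕ) (t : ℝ) : Prop :=
  ∀ n ≤ N, ∀ p : ℕ → ℤ × ℤ, p 0 = a → p n = v →
    (∀ i < n, |(p (i + 1)).1 - (p i).1| + |(p (i + 1)).2 - (p i).2| = 1) →
    t ≤ ∑ i ∈ Finset.range n, x s(p i, p (i + 1))

/-- log-concavity for windows -/
def S_WIN : Prop := ∀ (Ω : Type) [MeasureSpace Ω] [IsProbabilityMeasure (volume : Measure Ω)]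
  (X : Sym2 (ℤ × ℤ) → Ω → ℝ), Iid X → ∀ (a v : ℤ × ℤ) (N : ℕ) (s t : ℝ),
  (volume : Measure Ω) {ω | Win (env X ω) a v N s} * (volume : Measure Ω) {ω | Win (env X ω) a v N t}
    ≤ ((volume : Measure Ω) {ω | Win (env X ω) a v N ((s + t) / 2)}) ^ 2

/-- the window events are measurable -/
def S_WM : Prop := ∀ (Ω : Type) [MeasureSpace Ω] (X : Sym2 (ℤ × ℤ) → Ω → ℝ),
  (∀ e, Measurable (X e)) → ∀ (a v : ℤ × ℤ) (N : ℕ) (t : ℝ),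
  MeasurableSet {ω | Win (env X ω) a v N t}

/-- the weights are almost surely nonnegative -/
def S_AE : Prop := ∀ (Ω : Type) [MeasureSpace Ω] (X : Sym2 (ℤ × ℤ) → Ω → ℝ), Iid X →
  ∀ᵐ ω ∂(volume : Measure Ω), ∀ e, 0 ≤ env X ω e

/-- basic facts on the passage time for nonnegative weights -/
def S_GE : Prop := ∀ (x : Sym2 (ℤ × ℤ) → ℝ), (∀ e, 0 ≤ x e) → ∀ a v : ℤ × ℤ,
  (PS x a v).Nonempty ∧ BddBelow (PS x a v) ∧ 0 ≤ D x a v ∧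
  ∀ t : ℝ, t ≤ D x a v ↔ ∀ N : ℕ, Win x a v N t

/-- log-concavity of the upper tail of the passage time -/
def S_LC : Prop := ∀ (Ω : Type) [MeasureSpace Ω] [IsProbabilityMeasure (volume : Measure Ω)]
  (X : Sym2 (ℤ × ℤ) → Ω → ℝ), Iid X → ∀ (a v : ℤ × ℤ) (s t : ℝ),
  (volume : Measure Ω).real {ω | s ≤ D (env X ω) a v} *
    (volume : Measure Ω).real {ω | t ≤ D (env X ω) a v}
    ≤ ((volume : Measure Ω).real {ω | (s + t) / 2 ≤ D (env X ω) a v}) ^ 2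

/-- measurability of the passage time, as a function of the environment -/
def S_ME : Prop := ∀ (a v : ℤ × ℤ),
  Measurable fun x : Sym2 (ℤ × ℤ) → ℝ => D (fun e => max (x e) 0) a v

/-- the mean of the exponential law is finite -/
def S_EXPI : Prop := Integrable (fun x : ℝ => x) (expMeasure 1)

/-- the lattice is connected -/
def S_PATH : Prop := ∀ a v : ℤ × ℤ, ∃ n : ℕ, ∃ p : ℕ → ℤ × ℤ, p 0 = a ∧ p n = v ∧
  ∀ i < n, |(p (i + 1)).1 - (p i).1| + |(p (i + 1)).2 - (p i).2| = 1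

/-- triangle inequality -/
def S_TRI : Prop := ∀ (x : Sym2 (ℤ × ℤ) → ℝ), (∀ e, 0 ≤ x e) → ∀ a b c : ℤ × ℤ,
  D x a c ≤ D x a b + D x b c

/-- integrability of the passage time -/
def S_INT : Prop := ∀ (Ω : Type) [MeasureSpace Ω] [IsProbabilityMeasure (volume : Measure Ω)]
  (X : Sym2 (ℤ × ℤ) → Ω → ℝ), Iid X → ∀ (a v : ℤ × ℤ),
  Integrable (fun ω => D (env X ω) a v) (volume : Measure Ω)

/-- translation invariance of the mean passage time -/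
def S_TI : Prop := ∀ (Ω : Type) [MeasureSpace Ω] [IsProbabilityMeasure (volume : Measure Ω)]
  (X : Sym2 (ℤ × ℤ) → Ω → ℝ), Iid X → ∀ (a v : ℤ × ℤ),
  ∫ ω, D (env X ω) a (a + v) ∂(volume : Measure Ω) = ∫ ω, D (env X ω) 0 v ∂(volume : Measure Ω)

/-- subadditivity along the multiples of `v` -/
def S_SUB : Prop := ∀ (x : Sym2 (ℤ × ℤ) → ℝ), (∀ e, 0 ≤ x e) → ∀ (v : ℤ × ℤ) (n : ℕ),
  D x 0 ((n : ℤ) • v) ≤ ∑ k ∈ Finset.range n, D x ((k : ℤ) • v) ((k : ℤ) • v + v)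

/-- the mean passage time is at least the time constant -/
def S_FAT : Prop := ∀ (Ω : Type) [MeasureSpace Ω] [IsProbabilityMeasure (volume : Measure Ω)]
  (X : Sym2 (ℤ × ℤ) → Ω → ℝ), Iid X → ∀ (v : ℤ × ℤ) (m : ℝ),
  (∀ᵐ ω ∂(volume : Measure Ω), Tendsto (fun n : ℕ => D (env X ω) 0 ((n : ℤ) • v) / (n : ℝ)) atTop
    (𝓝 m)) →
  m ≤ ∫ ω, D (env X ω) 0 v ∂(volume : Measure Ω)

/-- existence of medians -/
def S_MED : Prop := ∀ (Ω : Type) [MeasureSpace Ω] [IsProbabilityMeasure (volume : Measure Ω)]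
  (T : Ω → ℝ), Measurable T → ∃ a : ℝ, 1 / 2 ≤ (volume : Measure Ω).real {ω | a ≤ T ω} ∧
    1 / 2 ≤ (volume : Measure Ω).real {ω | T ω ≤ a}

/-- geometric decay of a log-concave function -/
def S_GEO : Prop := ∀ (G : ℝ → ℝ), (∀ t, 0 ≤ G t) → Antitone G →
  (∀ s t : ℝ, G s * G t ≤ (G ((s + t) / 2)) ^ 2) → ∀ a L : ℝ, 0 < L → 1 / 2 ≤ G a →
  G (a + L) ≤ 1 / 8 → ∀ k : ℕ, G (a + L + k * L) ≤ 1 / 8 * (1 / 4) ^ k

/-- mean of the positive part from geometric tails -/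
def S_LAY : Prop := ∀ (Ω : Type) [MeasureSpace Ω] [IsProbabilityMeasure (volume : Measure Ω)]
  (T : Ω → ℝ), Measurable T → Integrable T (volume : Measure Ω) → ∀ b L : ℝ, 0 < L →
  (∀ k : ℕ, (volume : Measure Ω).real {ω | b + k * L ≤ T ω} ≤ 1 / 8 * (1 / 4) ^ k) →
  ∫ ω, max (T ω - b) 0 ∂(volume : Measure Ω) ≤ L / 6

/-- the one-point lemma, abstract form -/
def S_CORE : Prop := ∀ (Ω : Type) [MeasureSpace Ω] [IsProbabilityMeasure (volume : Measure Ω)]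
  (T : Ω → ℝ), Measurable T → Integrable T (volume : Measure Ω) → ∀ m r : ℝ, 0 < r →
  (∀ s t : ℝ, (volume : Measure Ω).real {ω | s ≤ T ω} * (volume : Measure Ω).real {ω | t ≤ T ω}
    ≤ ((volume : Measure Ω).real {ω | (s + t) / 2 ≤ T ω}) ^ 2) →
  m ≤ ∫ ω, T ω ∂(volume : Measure Ω) →
  (volume : Measure Ω).real {ω | m + r ≤ T ω} ≤ 1 / 8 →
  (∀ u : ℝ, 0 ≤ u →
    (volume : Measure Ω).real {ω | m + r + u ≤ T ω} ≤ Real.exp (-(u / (5 * r)))) ∧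
  ∫ ω, |T ω - m| ∂(volume : Measure Ω) ≤ 4 * r

/-- norm comparison -/
def S_NORM : Prop := ∀ (μ : Seminorm ℝ (ℝ × ℝ)), (∀ x, μ x = 0 → x = 0) →
  ∃ c C : ℝ, 0 < c ∧ 0 < C ∧ ∀ x : ℝ × ℝ, c * max |x.1| |x.2| ≤ μ x ∧ μ x ≤ C * max |x.1| |x.2|

/-- from the inner event to the one-point bounds -/
def S_DD : Prop := ∀ (Ω : Type) [MeasureSpace Ω] [IsProbabilityMeasure (volume : Measure Ω)]
  (T : Ω → ℤ × ℤ → ℝ) (μ : Seminorm ℝ (ℝ × ℝ)), (∀ x, μ x = 0 → x = 0) →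
  (∀ v, Integrable (fun ω => T ω v) (volume : Measure Ω)) →
  ∀ κ : ℝ, 0 < κ → κ < 1 →
  (∀ᶠ t : ℝ in atTop, (volume : Measure Ω).real (Bad T μ κ t) ≤ 1 / 8) →
  ∃ A : ℝ, 0 < A ∧ ∀ v : ℤ × ℤ,
    (volume : Measure Ω).real {ω | μ (em v) + A * (1 + μ (em v)) ^ (1 - κ) ≤ T ω v} ≤ 1 / 8

/-- covering of the inner event -/
def S_E1 : Prop := ∀ (μ : Seminorm ℝ (ℝ × ℝ)), (∀ x, μ x = 0 → x = 0) →
  ∃ C K : ℝ, 0 < C ∧ 0 < K ∧ ∀ (κ t : ℝ), 0 < κ → 1 ≤ t → ∃ F : Finset (ℤ × ℤ),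
    (F.card : ℝ) ≤ K * t ^ 2 ∧ (∀ v ∈ F, μ (em v) ≤ t - t ^ (1 - κ) + C) ∧
    ∀ (Ω : Type) (T : Ω → ℤ × ℤ → ℝ), Bad T μ κ t ⊆ ⋃ v ∈ F, {ω | t < T ω v}

/-- asymptotics -/
def S_E2 : Prop := ∀ A C K κ κ' : ℝ, 0 < A → 0 < C → 0 < K → 0 < κ' → κ' < κ → κ < 1 →
  ∀ᶠ t : ℝ in atTop, ∀ M : ℝ, 0 ≤ M → M ≤ t - t ^ (1 - κ') + C →
    0 ≤ t - M - A * (1 + M) ^ (1 - κ) ∧
    K * t ^ 2 * Real.exp (-((t - M - A * (1 + M) ^ (1 - κ)) / (5 * (A * (1 + M) ^ (1 - κ)))))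
      ≤ Real.exp (-(t ^ ((κ - κ') / 2)))

/-- from one-point bounds to the inner event -/
def S_EE : Prop := ∀ (Ω : Type) [MeasureSpace Ω] [IsProbabilityMeasure (volume : Measure Ω)]
  (T : Ω → ℤ × ℤ → ℝ) (μ : Seminorm ℝ (ℝ × ℝ)), (∀ x, μ x = 0 → x = 0) →
  ∀ κ A : ℝ, 0 < κ → κ < 1 → 0 < A →
  (∀ (v : ℤ × ℤ) (u : ℝ), 0 ≤ u →
    (volume : Measure Ω).real {ω | μ (em v) + A * (1 + μ (em v)) ^ (1 - κ) + u ≤ T ω v}
      ≤ Real.exp (-(u / (5 * (A * (1 + μ (em v)) ^ (1 - κ)))))) →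
  ∀ κ' : ℝ, 0 < κ' → κ' < κ → ∃ c : ℝ, 0 < c ∧
    ∀ᶠ t : ℝ in atTop, (volume : Measure Ω).real (Bad T μ κ' t) ≤ Real.exp (-(t ^ c))

end Pool.Agent.N662.FP
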