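import Pool.Agent.N662.FP.Stm

set_option autoImplicit false
open MeasureTheory ProbabilityTheory Filter Set
open scoped ENNReal Pointwise Topology

namespace Pool.Agent.N662.FP

/-! ### part B: the threshold 1/e -/

/-- weighted log-concavity from midpoint log-concavity and monotonicity -/
def S_FULL : Prop := ∀ (G : ℝ → ℝ), (∀ t, 0 ≤ G t) → Antitone G →
  (∀ s t : ℝ, G s * G t ≤ (G ((s + t) / 2)) ^ 2) → ∀ (x y θ : ℝ), x ≤ y → 0 < θ → θ < 1 →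
  G x ^ θ * G y ^ (1 - θ) ≤ G (θ * x + (1 - θ) * y)

/-- supporting exponential at a point -/
def S_LINE : Prop := ∀ (G : ℝ → ℝ), (∀ t, 0 ≤ G t) → (∀ t, G t ≤ 1) → Antitone G →
  (∀ s t : ℝ, G s * G t ≤ (G ((s + t) / 2)) ^ 2) → Tendsto G atBot (𝓝 1) →
  ∀ b u : ℝ, 0 < u → G b < 1 → 0 < G (b + u) →
  ∃ lam : ℝ, 0 < lam ∧ ∀ x : ℝ, G x ≤ G b * Real.exp (-(lam * (x - b)))

/-- mean from an exponential tail bound -/
def S_LAY2 : Prop := ∀ (Ω : Type) [MeasureSpace Ω] [IsProbabilityMeasure (volume : Measure Ω)]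
  (T : Ω → ℝ), Measurable T → Integrable T (volume : Measure Ω) → ∀ b C lam : ℝ, 0 < lam →
  (∀ x : ℝ, b ≤ x → (volume : Measure Ω).real {ω | x ≤ T ω} ≤ C * Real.exp (-(lam * (x - b)))) →
  ∫ ω, max (T ω - b) 0 ∂(volume : Measure Ω) ≤ C / lam

/-- the one-point lemma with the threshold `1/e` -/
def S_CORE2 : Prop := ∀ (Ω : Type) [MeasureSpace Ω] [IsProbabilityMeasure (volume : Measure Ω)]
  (T : Ω → ℝ), Measurable T → Integrable T (volume : Measure Ω) → ∀ m r d : ℝ, 0 < r → 0 < d →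
  (∀ s t : ℝ, (volume : Measure Ω).real {ω | s ≤ T ω} * (volume : Measure Ω).real {ω | t ≤ T ω}
    ≤ ((volume : Measure Ω).real {ω | (s + t) / 2 ≤ T ω}) ^ 2) →
  m ≤ ∫ ω, T ω ∂(volume : Measure Ω) →
  (volume : Measure Ω).real {ω | m + r ≤ T ω} ≤ Real.exp (-(1 + d)) →
  (∀ u : ℝ, 0 ≤ u →
    (volume : Measure Ω).real {ω | m + r + u ≤ T ω} ≤ Real.exp (-(1 + d + d * u / r))) ∧
  ∫ ω, |T ω - m| ∂(volume : Measure Ω) ≤ 2 * (1 + 1 / d) * r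

/-- from the inner event to the one-point bounds, any threshold -/
def S_DD2 : Prop := ∀ (Ω : Type) [MeasureSpace Ω] [IsProbabilityMeasure (volume : Measure Ω)]
  (T : Ω → ℤ × ℤ → ℝ) (μ : Seminorm ℝ (ℝ × ℝ)), (∀ x, μ x = 0 → x = 0) →
  (∀ v, Integrable (fun ω => T ω v) (volume : Measure Ω)) →
  ∀ κ e : ℝ, 0 < κ → κ < 1 → 0 < e →
  (∀ᶠ t : ℝ in atTop, (volume : Measure Ω).real (Bad T μ κ t) ≤ e) →
  ∃ A : ℝ, 0 < A ∧ ∀ v : ℤ × ℤ,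
    (volume : Measure Ω).real {ω | μ (em v) + A * (1 + μ (em v)) ^ (1 - κ) ≤ T ω v} ≤ e

/-! ### part A: the time constant is a norm -/

/-- the law of the passage time is translation invariant -/
def S_TIL : Prop := ∀ (Ω : Type) [MeasureSpace Ω] [IsProbabilityMeasure (volume : Measure Ω)]
  (X : Sym2 (ℤ × ℤ) → Ω → ℝ), Iid X → ∀ (a v : ℤ × ℤ) (s : ℝ),
  (volume : Measure Ω).real {ω | s ≤ D (env X ω) a (a + v)} =
    (volume : Measure Ω).real {ω | s ≤ D (env X ω) 0 v}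

/-- reversal -/
def S_REV : Prop := ∀ (x : Sym2 (ℤ × ℤ) → ℝ) (a v : ℤ × ℤ), D x a v = D x v a

/-- subadditivity of the time constant at lattice points -/
def S_SUBZ : Prop := ∀ (Ω : Type) [MeasureSpace Ω] [IsProbabilityMeasure (volume : Measure Ω)]
  (X : Sym2 (ℤ × ℤ) → Ω → ℝ), Iid X → ∀ (z w : ℤ × ℤ) (a b c : ℝ),
  (∀ᵐ ω ∂(volume : Measure Ω), Tendsto (fun n : ℕ => D (env X ω) 0 ((n : ℤ) • z) / (n : ℝ)) atTop
    (𝓝 a)) →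
  (∀ᵐ ω ∂(volume : Measure Ω), Tendsto (fun n : ℕ => D (env X ω) 0 ((n : ℤ) • w) / (n : ℝ)) atTop
    (𝓝 b)) →
  (∀ᵐ ω ∂(volume : Measure Ω),
    Tendsto (fun n : ℕ => D (env X ω) 0 ((n : ℤ) • (z + w)) / (n : ℝ)) atTop (𝓝 c)) →
  c ≤ a + b

/-- symmetry of the time constant at lattice points -/
def S_SYMZ : Prop := ∀ (Ω : Type) [MeasureSpace Ω] [IsProbabilityMeasure (volume : Measure Ω)]
  (X : Sym2 (ℤ × ℤ) → Ω → ℝ), Iid X → ∀ (z : ℤ × ℤ) (a b : ℝ),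
  (∀ᵐ ω ∂(volume : Measure Ω), Tendsto (fun n : ℕ => D (env X ω) 0 ((n : ℤ) • z) / (n : ℝ)) atTop
    (𝓝 a)) →
  (∀ᵐ ω ∂(volume : Measure Ω),
    Tendsto (fun n : ℕ => D (env X ω) 0 ((n : ℤ) • (-z)) / (n : ℝ)) atTop (𝓝 b)) →
  a = b

/-- extension from lattice points to the plane -/
def S_EXT : Prop := ∀ (μ : ℝ × ℝ → ℝ) (c0 : ℝ), 0 < c0 →
  (∀ (x : ℝ × ℝ) (c : ℝ), 0 ≤ c → μ (c • x) = c * μ x) → Continuous μ →
  (∀ z w : ℤ × ℤ, μ (em (z + w)) ≤ μ (em z) + μ (em w)) → (∀ z : ℤ × ℤ, μ (em (-z)) = μ (em z)) →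
  (∀ z : ℤ × ℤ, c0 * max |(z.1 : ℝ)| |(z.2 : ℝ)| ≤ μ (em z)) →
  ∃ p : Seminorm ℝ (ℝ × ℝ), (∀ x, p x = μ x) ∧ ∀ x, p x = 0 → x = 0

/-- a path can be replaced by a path without repeated vertices -/
def S_SAW : Prop := ∀ (x : Sym2 (ℤ × ℤ) → ℝ), (∀ e, 0 ≤ x e) → ∀ (a v : ℤ × ℤ) (s : ℝ),
  s ∈ PS x a v → ∃ n : ℕ, ∃ p : ℕ → ℤ × ℤ, p 0 = a ∧ p n = v ∧
    (∀ i < n, |(p (i + 1)).1 - (p i).1| + |(p (i + 1)).2 - (p i).2| = 1) ∧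
    (∀ i ≤ n, ∀ j ≤ n, p i = p j → i = j) ∧ ∑ i ∈ Finset.range n, x s(p i, p (i + 1)) ≤ s

/-- fast self-avoiding paths of length `n` -/
def Fast (x : Sym2 (ℤ × ℤ) → ℝ) (n : ℕ) : Prop := ∃ p : ℕ → ℤ × ℤ, p 0 = 0 ∧
    (∀ i < n, |(p (i + 1)).1 - (p i).1| + |(p (i + 1)).2 - (p i).2| = 1) ∧
    (∀ i ≤ n, ∀ j ≤ n, p i = p j → i = j) ∧
    ∑ i ∈ Finset.range n, x s(p i, p (i + 1)) ≤ 1 / 25 * n

/-- fast self-avoiding paths are unlikely -/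
def S_CNT : Prop := ∀ (Ω : Type) [MeasureSpace Ω] [IsProbabilityMeasure (volume : Measure Ω)]
  (X : Sym2 (ℤ × ℤ) → Ω → ℝ), Iid X → ∀ n : ℕ,
  (volume : Measure Ω) {ω | Fast (env X ω) n} ≤ (1 / 2 : ℝ≥0∞) ^ n

/-- positivity of the time constant at lattice points -/
def S_POSZ : Prop := ∀ (Ω : Type) [MeasureSpace Ω] [IsProbabilityMeasure (volume : Measure Ω)]
  (X : Sym2 (ℤ × ℤ) → Ω → ℝ), Iid X → ∀ (z : ℤ × ℤ) (a : ℝ),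
  (∀ᵐ ω ∂(volume : Measure Ω), Tendsto (fun n : ℕ => D (env X ω) 0 ((n : ℤ) • z) / (n : ℝ)) atTop
    (𝓝 a)) →
  1 / 25 * max |(z.1 : ℝ)| |(z.2 : ℝ)| ≤ a

end Pool.Agent.N662.FP
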