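import Pool.Agent.N662.FP.Stm2

set_option autoImplicit false
open MeasureTheory ProbabilityTheory Filter Set
open scoped ENNReal Pointwise Topology

namespace Pool.Agent.N662.FP

/-! ### part C: the outer half -/

/-- a box -/
noncomputable def Box (R : ℕ) : Finset (ℤ × ℤ) := Finset.Icc (-(R : ℤ)) R ×ˢ Finset.Icc (-(R : ℤ)) R

/-- self-avoiding path of length `n` from `x` to `y` in the box -/
def Pth (R : ℕ) (x y : ℤ × ℤ) (n : ℕ) (p : ℕ → ℤ × ℤ) : Prop :=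
  p 0 = x ∧ p n = y ∧
    (∀ i < n, |(p (i + 1)).1 - (p i).1| + |(p (i + 1)).2 - (p i).2| = 1) ∧
    (∀ i ≤ n, ∀ j ≤ n, p i = p j → i = j) ∧ ∀ i ≤ n, p i ∈ Box R

/-- passage time of a path -/
noncomputable def Tm (w : Sym2 (ℤ × ℤ) → ℝ) (n : ℕ) (p : ℕ → ℤ × ℤ) : ℝ :=
  ∑ i ∈ Finset.range n, w s(p i, p (i + 1))

/-- there is a path in the box with passage time `≤ τ` and deficit `≥ σ` -/
def AA (μ : Seminorm ℝ (ℝ × ℝ)) (w : Sym2 (ℤ × ℤ) → ℝ) (R : ℕ) (σ τ : ℝ) : Prop :=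
  ∃ (x y : ℤ × ℤ) (n : ℕ) (p : ℕ → ℤ × ℤ), Pth R x y n p ∧ Tm w n p ≤ τ ∧
    Tm w n p ≤ μ (em (y - x)) - σ

/-- two edge-disjoint paths, from `x` to `z` and from `z` to `y`, with passage times `≤ s`, `≤ t` -/
def Two (w : Sym2 (ℤ × ℤ) → ℝ) (R : ℕ) (x z y : ℤ × ℤ) (s t : ℝ) : Prop :=
  ∃ (n : ℕ) (p : ℕ → ℤ × ℤ) (m : ℕ) (q : ℕ → ℤ × ℤ), Pth R x z n p ∧ Pth R z y m q ∧
    (∀ i < n, ∀ j < m, s(p i, p (i + 1)) ≠ s(q j, q (j + 1))) ∧ Tm w n p ≤ s ∧ Tm w m q ≤ t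

/-- two consecutive edge-disjoint paths with deficits `≥ a` -/
def BB (μ : Seminorm ℝ (ℝ × ℝ)) (w : Sym2 (ℤ × ℤ) → ℝ) (R : ℕ) (a : ℝ) : Prop :=
  ∃ x ∈ Box R, ∃ z ∈ Box R, ∃ y ∈ Box R,
    Two w R x z y (μ (em (z - x)) - a) (μ (em (y - z)) - a)

/-- fast self-avoiding paths of length `k` from `x` -/
def FastAt (w : Sym2 (ℤ × ℤ) → ℝ) (x : ℤ × ℤ) (k : ℕ) : Prop := ∃ p : ℕ → ℤ × ℤ, p 0 = x ∧
    (∀ i < k, |(p (i + 1)).1 - (p i).1| + |(p (i + 1)).2 - (p i).2| = 1) ∧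
    (∀ i ≤ k, ∀ j ≤ k, p i = p j → i = j) ∧ Tm w k p ≤ 1 / 25 * k

/-- cutting a path at half its passage time, iterated -/
def S_CUT : Prop := ∀ (μ : Seminorm ℝ (ℝ × ℝ)) (w : Sym2 (ℤ × ℤ) → ℝ), (∀ e, 0 ≤ w e) →
  ∀ (R : ℕ) (σ τ a W : ℝ), 0 ≤ a → 0 ≤ W → (∀ x ∈ Box R, ∀ y ∈ Box R, w s(x, y) ≤ W) →
  AA μ w R σ τ → ∀ L : ℕ, AA μ w R (σ - L * a) (τ / 2 ^ L + 2 * W) ∨ BB μ w R a

/-- a short passage time with a large displacement is a fast path -/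
def S_END : Prop := ∀ (μ : Seminorm ℝ (ℝ × ℝ)) (C : ℝ), 0 < C →
  (∀ x : ℝ × ℝ, μ x ≤ C * max |x.1| |x.2|) → ∀ (w : Sym2 (ℤ × ℤ) → ℝ), (∀ e, 0 ≤ w e) →
  ∀ (R k : ℕ) (σ τ : ℝ), C * k ≤ σ → τ ≤ 1 / 25 * k → AA μ w R σ τ → ∃ x ∈ Box R, FastAt w x k

/-- fast paths are unlikely -/
def S_CNTX : Prop := ∀ (Ω : Type) [MeasureSpace Ω] [IsProbabilityMeasure (volume : Measure Ω)]
  (X : Sym2 (ℤ × ℤ) → Ω → ℝ), Iid X → ∀ R k : ℕ,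
  (volume : Measure Ω).real {ω | ∃ x ∈ Box R, FastAt (env X ω) x k} ≤
    (2 * R + 1) ^ 2 * (1 / 2 : ℝ) ^ k

/-- large weights are unlikely -/
def S_WMAX : Prop := ∀ (Ω : Type) [MeasureSpace Ω] [IsProbabilityMeasure (volume : Measure Ω)]
  (X : Sym2 (ℤ × ℤ) → Ω → ℝ), Iid X → ∀ (R : ℕ) (W : ℝ), 0 ≤ W →
  (volume : Measure Ω).real {ω | ∃ x ∈ Box R, ∃ y ∈ Box R, W < env X ω s(x, y)} ≤
    (2 * R + 1) ^ 4 * Real.exp (-W)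

/-- the van den Berg-Kesten inequality for two sums over disjoint sets -/
def S_BKF : Prop := ∀ (ι : Type) [Fintype ι] [DecidableEq ι] (ν : Measure ℝ)
  [IsProbabilityMeasure ν] (P1 P2 : Finset (Finset ι)) (a b : ℝ),
  (Measure.pi fun _ : ι => ν) {x | ∃ S ∈ P1, ∃ S' ∈ P2, Disjoint S S' ∧ ∑ i ∈ S, x i ≤ a ∧
      ∑ i ∈ S', x i ≤ b} ≤
    (Measure.pi fun _ : ι => ν) {x | ∃ S ∈ P1, ∑ i ∈ S, x i ≤ a} *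
      (Measure.pi fun _ : ι => ν) {x | ∃ S ∈ P2, ∑ i ∈ S, x i ≤ b}

/-- the van den Berg-Kesten inequality for two passage times -/
def S_BKP : Prop := ∀ (Ω : Type) [MeasureSpace Ω] [IsProbabilityMeasure (volume : Measure Ω)]
  (X : Sym2 (ℤ × ℤ) → Ω → ℝ), Iid X → ∀ (R : ℕ) (x z y : ℤ × ℤ) (s t : ℝ),
  (volume : Measure Ω).real {ω | Two (env X ω) R x z y s t} ≤
    (volume : Measure Ω).real {ω | D (env X ω) x z ≤ s} *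
      (volume : Measure Ω).real {ω | D (env X ω) z y ≤ t}

/-- the law of the passage time is translation invariant, other inequality -/
def S_TIL2 : Prop := ∀ (Ω : Type) [MeasureSpace Ω] [IsProbabilityMeasure (volume : Measure Ω)]
  (X : Sym2 (ℤ × ℤ) → Ω → ℝ), Iid X → ∀ (a b : ℤ × ℤ) (s : ℝ),
  (volume : Measure Ω).real {ω | D (env X ω) a b ≤ s} =
    (volume : Measure Ω).real {ω | D (env X ω) 0 (b - a) ≤ s}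

/-- two deficits -/
def S_BB : Prop := ∀ (Ω : Type) [MeasureSpace Ω] [IsProbabilityMeasure (volume : Measure Ω)]
  (X : Sym2 (ℤ × ℤ) → Ω → ℝ), Iid X → ∀ (μ : Seminorm ℝ (ℝ × ℝ)) (R : ℕ) (a ρ : ℝ), 0 ≤ ρ →
  (∀ v ∈ Box (2 * R), (volume : Measure Ω).real {ω | D (env X ω) 0 v ≤ μ (em v) - a} ≤ ρ) →
  (volume : Measure Ω).real {ω | BB μ (env X ω) R a} ≤ (2 * R + 1) ^ 6 * ρ ^ 2

/-- a deficit of the passage time gives a path in the box, or a fast path -/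
def S_PT : Prop := ∀ (μ : Seminorm ℝ (ℝ × ℝ)) (w : Sym2 (ℤ × ℤ) → ℝ), (∀ e, 0 ≤ w e) →
  ∀ (R : ℕ) (v : ℤ × ℤ) (s : ℝ), 0 ≤ s → μ (em v) + 1 ≤ 1 / 25 * R →
  D w 0 v ≤ μ (em v) - s → AA μ w R (s - 1) (μ (em v) + 1) ∨ FastAt w 0 R

/-- one step of the recursion, before optimization -/
def S_STEP : Prop := ∀ (Ω : Type) [MeasureSpace Ω] [IsProbabilityMeasure (volume : Measure Ω)]
  (X : Sym2 (ℤ × ℤ) → Ω → ℝ), Iid X → ∀ (μ : Seminorm ℝ (ℝ × ℝ)) (C : ℝ), 0 < C →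
  (∀ x : ℝ × ℝ, μ x ≤ C * max |x.1| |x.2|) →
  ∀ (R k L : ℕ) (v : ℤ × ℤ) (s a W ρ : ℝ), 0 ≤ s → 0 ≤ a → 0 ≤ W → 0 ≤ ρ →
  μ (em v) + 1 ≤ 1 / 25 * R → C * k ≤ s - 1 - L * a →
  (μ (em v) + 1) / 2 ^ L + 2 * W ≤ 1 / 25 * k →
  (∀ v ∈ Box (2 * R), (volume : Measure Ω).real {ω | D (env X ω) 0 v ≤ μ (em v) - a} ≤ ρ) →
  (volume : Measure Ω).real {ω | D (env X ω) 0 v ≤ μ (em v) - s} ≤
    (2 * R + 1) ^ 6 * ρ ^ 2 + (2 * R + 1) ^ 2 * (1 / 2 : ℝ) ^ k +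
      (2 * R + 1) ^ 2 * (1 / 2 : ℝ) ^ R + (2 * R + 1) ^ 4 * Real.exp (-W)

/-- point-to-point lower tail at exponent `κ` with power `q` -/
def PP {Ω : Type} [MeasureSpace Ω] (X : Sym2 (ℤ × ℤ) → Ω → ℝ) (μ : Seminorm ℝ (ℝ × ℝ))
    (κ q : ℝ) : Prop := ∃ C : ℝ, ∀ t : ℝ, 1 ≤ t → ∀ v : ℤ × ℤ, μ (em v) ≤ t →
  (volume : Measure Ω).real {ω | D (env X ω) 0 v ≤ μ (em v) - t ^ (1 - κ)} ≤ C * t ^ (-q)

/-- one step of the recursion -/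
def S_REC : Prop := ∀ (Ω : Type) [MeasureSpace Ω] [IsProbabilityMeasure (volume : Measure Ω)]
  (X : Sym2 (ℤ × ℤ) → Ω → ℝ), Iid X → ∀ (μ : Seminorm ℝ (ℝ × ℝ)), (∀ x, μ x = 0 → x = 0) →
  ∀ κ κ2 q : ℝ, 0 < κ → κ < κ2 → κ2 < 1 → 0 < q → PP X μ κ2 q → PP X μ κ (2 * q - 6)

/-- the outer event: the fattened cluster is not contained in `(1 + t ^ (-κ)) t` times the shape -/
def Out {Ω : Type} (T : Ω → ℤ × ℤ → ℝ) (μ : Seminorm ℝ (ℝ × ℝ)) (κ t : ℝ) : Set Ω :=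
  {ω | ¬ (Fat (T ω) t ⊆ ((1 + t ^ (-κ)) * t) • {x : ℝ × ℝ | μ x ≤ 1})}

/-- covering of the outer event -/
def S_OUT1 : Prop := ∀ (μ : Seminorm ℝ (ℝ × ℝ)), (∀ x, μ x = 0 → x = 0) →
  ∃ C K : ℝ, 0 < C ∧ 0 < K ∧ ∀ (κ t : ℝ), 0 < κ → 1 ≤ t → C ≤ t → ∃ F : Finset (ℤ × ℤ),
    (F.card : ℝ) ≤ K * t ^ 2 ∧ (∀ v ∈ F, μ (em v) ≤ 2 * t) ∧
    ∀ w : Sym2 (ℤ × ℤ) → ℝ, (∀ e, 0 ≤ w e) →
      ¬ (Fat (D w 0) t ⊆ ((1 + t ^ (-κ)) * t) • {x : ℝ × ℝ | μ x ≤ 1}) →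
      ∃ v ∈ F, D w 0 v ≤ μ (em v) - (t ^ (1 - κ) - C)

/-- from point-to-point to the outer event -/
def S_OUT3 : Prop := ∀ (Ω : Type) [MeasureSpace Ω] [IsProbabilityMeasure (volume : Measure Ω)]
  (X : Sym2 (ℤ × ℤ) → Ω → ℝ), Iid X → ∀ (μ : Seminorm ℝ (ℝ × ℝ)), (∀ x, μ x = 0 → x = 0) →
  ∀ κ κ2 q : ℝ, 0 < κ → κ < κ2 → κ2 < 1 → 0 < q → PP X μ κ2 (q + 2) →
  Asymptotics.IsBigO atTop
    (fun t : ℝ => (volume : Measure Ω).real (Out (fun ω v => D (env X ω) 0 v) μ κ t))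
    (fun t : ℝ => t ^ (-q))

/-- from the outer event and the upper tail to point-to-point -/
def S_OUT2 : Prop := ∀ (Ω : Type) [MeasureSpace Ω] [IsProbabilityMeasure (volume : Measure Ω)]
  (X : Sym2 (ℤ × ℤ) → Ω → ℝ), Iid X → ∀ (μ : Seminorm ℝ (ℝ × ℝ)), (∀ x, μ x = 0 → x = 0) →
  ∀ κ κ2 A q : ℝ, 0 < κ → κ < κ2 → κ2 < 1 → 0 < A → 0 < q →
  (∀ (v : ℤ × ℤ) (u : ℝ), 0 ≤ u →
    (volume : Measure Ω).real {ω | μ (em v) + A * (1 + μ (em v)) ^ (1 - κ2) + u ≤ D (env X ω) 0 v}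
      ≤ Real.exp (-(u / (5 * (A * (1 + μ (em v)) ^ (1 - κ2)))))) →
  Asymptotics.IsBigO atTop
    (fun t : ℝ => (volume : Measure Ω).real (Out (fun ω v => D (env X ω) 0 v) μ κ2 t))
    (fun t : ℝ => t ^ (-q)) →
  PP X μ κ q

end Pool.Agent.N662.FP
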