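import Pool.Agent.N662.FP.Main2
import Pool.Agent.N521.FL.PLE
import Pool.Agent.N887.FL.Fin
import Pool.Agent.N36.FL.Win
import Pool.Agent.N327.FL.Bas
import Pool.Agent.N263.FL.PathGE
import Pool.Agent.N749.FL.LC
import Pool.Agent.N31.FL.MEINT
import Pool.Agent.N390.FL.TI
import Pool.Agent.N776.FL.Tri
import Pool.Agent.N881.FL.FAT
import Pool.Agent.N413.FL.NORM
import Pool.Agent.N403.FL.E1
import Pool.Agent.N293.FL.E2
import Pool.Agent.N698.FL.EE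
import Pool.Agent.N285.FM.Full
import Pool.Agent.N585.FM.Line
import Pool.Agent.N195.FM.TIL
import Pool.Agent.N335.FM.RevSaw
import Pool.Agent.N340.FM.SYMZ
import Pool.Agent.N657.FM.Ext
import Pool.Agent.N346.FM.LAY2
import Pool.Agent.N398.FM.CORE2
import Pool.Agent.N68.FM.DD2
import Pool.Agent.N878.FM.SUBZ
import Pool.Agent.N896.FM.CNT
import Pool.Agent.N476.FM.POSZ

set_option autoImplicit false
open MeasureTheory ProbabilityTheory Filter Set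
open scoped ENNReal Pointwise Topology

namespace Pool.Agent.N662.FP

theorem cPATH : S_PATH := Pool.Agent.N263.FL.t_PATH
theorem cGE : S_GE := Pool.Agent.N263.FL.t_GE cPATH
theorem cAE : S_AE := Pool.Agent.N327.FL.t_AE
theorem cLC : S_LC := Pool.Agent.N749.FL.LC.t_LC
  (Pool.Agent.N36.FL.t_WIN Pool.Agent.N521.FL.t_PLE Pool.Agent.N887.FL.t_FIN)
  Pool.Agent.N327.FL.t_WM cAE cGE
theorem cME : S_ME := Pool.Agent.N31.FL.t_ME cGE
theorem cINT : S_INT := Pool.Agent.N31.FL.t_INT cME cAE cGE Pool.Agent.N327.FL.t_EXPI cPATH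
theorem cTI : S_TI := Pool.Agent.N390.FL.TI.t_TI cME cAE
theorem cTRI : S_TRI := Pool.Agent.N776.FL.t_TRI cGE
theorem cSUB : S_SUB := Pool.Agent.N776.FL.t_SUB cTRI cGE
theorem cFAT : S_FAT := Pool.Agent.N881.FL.t_FAT cINT cTI cSUB cAE cGE
theorem cNORM : S_NORM := Pool.Agent.N413.FLNORM.t_NORM
theorem cE1 : S_E1 := Pool.Agent.N403.FL.t_E1 cNORM
theorem cEE : S_EE := Pool.Agent.N698.FL.EE.t_EE cE1 Pool.Agent.N293.FL.t_E2
theorem cFULL : S_FULL := Pool.Agent.N285.FM.t_FULL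
theorem cCORE2 : S_CORE2 := Pool.Agent.N398.FM.CORE2.t_CORE2
  (Pool.Agent.N585.FM.t_LINE cFULL) Pool.Agent.N346.FM.t_LAY2
theorem cDD2 : S_DD2 := Pool.Agent.N68.FM.DD2.t_DD2 cNORM
theorem cTIL : S_TIL := Pool.Agent.N195.FM.t_TIL cME cAE
theorem cREV : S_REV := Pool.Agent.N335.FM.t_REV
theorem cSAW : S_SAW := Pool.Agent.N335.FM.t_SAW
theorem cSUBZ : S_SUBZ := Pool.Agent.N878.FM.t_SUBZ cTIL cTRI cAE cME
theorem cSYMZ : S_SYMZ := Pool.Agent.N340.FM.t_SYMZ cTIL cREV cAE cME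
theorem cEXT : S_EXT := Pool.Agent.N657.FM.t_EXT
theorem cPOSZ : S_POSZ := Pool.Agent.N476.FM.t_POSZ Pool.Agent.N896.FM.t_CNT cSAW cAE cGE

/-- the time constant is a norm, and the one-point lemma holds -/
theorem setup (Ω : Type) [MeasureSpace Ω] [IsProbabilityMeasure (volume : Measure Ω)]
    (X : Sym2 (ℤ × ℤ) → Ω → ℝ) (T : Ω → ℤ × ℤ → ℝ) (μ : ℝ × ℝ → ℝ)
    (h1 : ∀ e, Measurable (X e))
    (h2 : iIndepFun X (volume : Measure Ω))
    (h3 : ∀ e, Measure.map (X e) (volume : Measure Ω) = expMeasure 1)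
    (hT : ∀ ω v, T ω v = sInf {s : ℝ | ∃ n : ℕ, ∃ p : ℕ → ℤ × ℤ, p 0 = 0 ∧ p n = v ∧
        (∀ i < n, |(p (i + 1)).1 - (p i).1| + |(p (i + 1)).2 - (p i).2| = 1) ∧
        s = ∑ i ∈ Finset.range n, X s(p i, p (i + 1)) ω})
    (hhom : ∀ (x : ℝ × ℝ) (c : ℝ), 0 ≤ c → μ (c • x) = c * μ x)
    (hcont : Continuous μ)
    (hlim : ∀ z : ℤ × ℤ, ∀ᵐ ω ∂(volume : Measure Ω),
        Tendsto (fun n : ℕ => T ω ((n : ℤ) • z) / (n : ℝ)) atTop
          (nhds (μ ((z.1 : ℝ), (z.2 : ℝ))))) :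
    Iid X ∧ T = (fun ω v => D (env X ω) 0 v) ∧ ∃ p : Seminorm ℝ (ℝ × ℝ), ⇑p = μ ∧ Good T p := by
  have hX : Iid X := ⟨h1, h2, h3⟩
  have hTD : T = (fun ω v => D (env X ω) 0 v) := by
    funext ω v
    exact hT ω v
  refine ⟨hX, hTD, ?_⟩
  have hlim' : ∀ z : ℤ × ℤ, ∀ᵐ ω ∂(volume : Measure Ω),
      Tendsto (fun n : ℕ => D (env X ω) 0 ((n : ℤ) • z) / (n : ℝ)) atTop (𝓝 (μ (em z))) := by
    intro z
    have := hlim z
    rw [hTD] at this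
    exact this
  obtain ⟨p, hp, hp0⟩ := isNorm cSUBZ cSYMZ cPOSZ cEXT hX μ hhom hcont hlim'
  refine ⟨p, funext hp, hp0, ?_, ?_⟩
  · intro v
    rw [hTD]
    exact cINT Ω X hX 0 v
  · intro v r d hr hd h8
    rw [hTD] at h8 ⊢
    have hl := hlim' v
    rw [← hp] at hl
    exact onePoint2 cLC cINT cFAT cCORE2 cME cAE hX v (p (em v)) r d hr hd hl h8

end Pool.Agent.N662.FP
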