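import Pool.Agent.N662.FP.Fin
import Pool.Agent.N662.FP.Stm3

set_option autoImplicit false
open MeasureTheory ProbabilityTheory Filter Set
open scoped ENNReal Pointwise Topology

namespace Pool.Agent.N662.FP

section
variable {Ω : Type} [MeasureSpace Ω] [IsProbabilityMeasure (volume : Measure Ω)]
variable {T : Ω → ℤ × ℤ → ℝ} {μ : Seminorm ℝ (ℝ × ℝ)} {X : Sym2 (ℤ × ℤ) → Ω → ℝ}

/-- exponential upper tails from one-point bounds -/
theorem up (hG : Good T μ) (κ : ℝ) (A : ℝ) (hA : 0 < A)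
    (e : ℝ) (he : e < Real.exp (-1)) (h : ∀ v : ℤ × ℤ,
      (volume : Measure Ω).real {ω | μ (em v) + A * (1 + μ (em v)) ^ (1 - κ) ≤ T ω v} ≤ e) :
    ∃ A' : ℝ, 0 < A' ∧ ∀ (v : ℤ × ℤ) (u : ℝ), 0 ≤ u →
      (volume : Measure Ω).real {ω | μ (em v) + A' * (1 + μ (em v)) ^ (1 - κ) + u ≤ T ω v}
        ≤ Real.exp (-(u / (5 * (A' * (1 + μ (em v)) ^ (1 - κ))))) := by
  obtain ⟨d, hd, hed⟩ := ex_d e he
  refine ⟨A * (1 + 1 / (5 * d)), by positivity, ?_⟩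
  intro v u hu
  have hw := pos μ v A κ hA
  set w := A * (1 + μ (em v)) ^ (1 - κ) with hwd
  have e1 : A * (1 + 1 / (5 * d)) * (1 + μ (em v)) ^ (1 - κ) = w * (1 + 1 / (5 * d)) := by
    rw [hwd]; ring
  rw [e1]
  have h2 := (hG.one v w d hw hd ((h v).trans hed)).1 u hu
  have h3 : w ≤ w * (1 + 1 / (5 * d)) := by
    have : 0 ≤ w * (1 / (5 * d)) := by positivity
    nlinarith
  refine le_trans (measureReal_mono (μ := (volume : Measure Ω)) (s₂ := {ω | μ (em v) + w + u ≤ T ω v})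
    ?_ (measure_ne_top _ _)) (h2.trans (Real.exp_le_exp.2 ?_))
  · intro ω hω
    have h4 : μ (em v) + w * (1 + 1 / (5 * d)) + u ≤ T ω v := hω
    show μ (em v) + w + u ≤ T ω v
    linarith
  · have h5 : w / (5 * d) ≤ w * (1 + 1 / (5 * d)) := by
      have : w * (1 + 1 / (5 * d)) = w + w / (5 * d) := by ring
      rw [this]; linarith
    have h6 : u / (5 * (w * (1 + 1 / (5 * d)))) ≤ u / (5 * (w / (5 * d))) :=
      div_le_div_of_nonneg_left hu (by positivity) (by linarith)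
    have h7 : u / (5 * (w / (5 * d))) = d * u / w := by field_simp
    linarith

omit [IsProbabilityMeasure (volume : Measure Ω)] in
theorem PP_anti (κ q q' : ℝ) (hq : q' ≤ q) (h : PP X μ κ q) : PP X μ κ q' := by
  obtain ⟨C, hC⟩ := h
  refine ⟨max C 0, fun t ht v hv => (hC t ht v hv).trans ?_⟩
  have h1 : t ^ (-q) ≤ t ^ (-q') := Real.rpow_le_rpow_of_exponent_le ht (by linarith)
  have h2 : 0 ≤ t ^ (-q) := Real.rpow_nonneg (by linarith) _
  calc C * t ^ (-q) ≤ max C 0 * t ^ (-q) := mul_le_mul_of_nonneg_right (le_max_left _ _) h2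
    _ ≤ max C 0 * t ^ (-q') := mul_le_mul_of_nonneg_left h1 (le_max_right _ _)

/-- the recursion, iterated -/
theorem iter (hREC : S_REC) (hX : Iid X) (hμ : ∀ x, μ x = 0 → x = 0) (K : ℝ) (hK : K < 1)
    (q0 : ℝ) (hq0 : 6 < q0) (h : ∀ κ : ℝ, 0 < κ → κ < K → PP X μ κ q0) :
    ∀ (j : ℕ) (κ : ℝ), 0 < κ → κ < K → PP X μ κ (6 + 2 ^ j * (q0 - 6)) := by
  intro j
  induction j with
  | zero =>
    intro κ h0 h1
    have : 6 + 2 ^ 0 * (q0 - 6) = q0 := by ring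
    rw [this]
    exact h κ h0 h1
  | succ j ih =>
    intro κ h0 h1
    have h2 := ih ((κ + K) / 2) (by linarith) (by linarith)
    have hp : (0 : ℝ) < 2 ^ j * (q0 - 6) := by
      have : 0 < q0 - 6 := by linarith
      positivity
    have h3 := hREC Ω X hX μ hμ κ ((κ + K) / 2) (6 + 2 ^ j * (q0 - 6)) h0 (by linarith)
      (by linarith) (by linarith) h2
    have : 2 * (6 + 2 ^ j * (q0 - 6)) - 6 = 6 + 2 ^ (j + 1) * (q0 - 6) := by ring
    rwa [this] at h3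

theorem all_q (hREC : S_REC) (hX : Iid X) (hμ : ∀ x, μ x = 0 → x = 0) (K : ℝ) (hK : K < 1)
    (q0 : ℝ) (hq0 : 6 < q0) (h : ∀ κ : ℝ, 0 < κ → κ < K → PP X μ κ q0) (κ q : ℝ) (h0 : 0 < κ)
    (h1 : κ < K) : PP X μ κ q := by
  have hp : 0 < q0 - 6 := by linarith
  obtain ⟨j, hj⟩ := pow_unbounded_of_one_lt (q / (q0 - 6)) (by norm_num : (1 : ℝ) < 2)
  have h2 : q < 2 ^ j * (q0 - 6) := by rwa [div_lt_iff₀ hp] at hj
  exact PP_anti κ _ q (by linarith) (iter hREC hX hμ K hK q0 hq0 h j κ h0 h1)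

theorem out_q (hREC : S_REC) (hOUT3 : S_OUT3) (hX : Iid X) (hμ : ∀ x, μ x = 0 → x = 0) (K : ℝ)
    (hK : K < 1) (q0 : ℝ) (hq0 : 6 < q0) (h : ∀ κ : ℝ, 0 < κ → κ < K → PP X μ κ q0) (κ q : ℝ)
    (h0 : 0 < κ) (h1 : κ < K) (hq : 0 < q) :
    Asymptotics.IsBigO atTop
      (fun t : ℝ => (volume : Measure Ω).real (Out (fun ω v => D (env X ω) 0 v) μ κ t))
      (fun t : ℝ => t ^ (-q)) :=
  hOUT3 Ω X hX μ hμ κ ((κ + K) / 2) q h0 (by linarith) (by linarith) hq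
    (all_q hREC hX hμ K hK q0 hq0 h _ _ (by linarith) (by linarith))

/-- both halves -/
theorem both (hN : S_NORM) (hDD : S_DD2) (hEE : S_EE) (hREC : S_REC) (hOUT3 : S_OUT3)
    (hOUT2 : S_OUT2) (hX : Iid X) (hG : Good (fun ω v => D (env X ω) 0 v) μ) (K : ℝ)
    (hK : K < 1) :
    (∀ κ : ℝ, 0 < κ → κ < K → ∀ q : ℝ, 0 < q →
      Asymptotics.IsBigO atTop
        (fun t : ℝ => (volume : Measure Ω).real (Out (fun ω v => D (env X ω) 0 v) μ κ t))
        (fun t : ℝ => t ^ (-q)) ∧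
      Asymptotics.IsBigO atTop
        (fun t : ℝ => (volume : Measure Ω).real (Bad (fun ω v => D (env X ω) 0 v) μ κ t))
        (fun t : ℝ => t ^ (-q))) ↔
    ((∃ q0 : ℝ, 6 < q0 ∧ ∀ κ : ℝ, 0 < κ → κ < K → Asymptotics.IsBigO atTop
        (fun t : ℝ => (volume : Measure Ω).real (Out (fun ω v => D (env X ω) 0 v) μ κ t))
        (fun t : ℝ => t ^ (-q0))) ∧
      ∀ κ : ℝ, 0 < κ → κ < K → ∃ e : ℝ, e < Real.exp (-1) ∧
        ∀ᶠ t : ℝ in atTop,
          (volume : Measure Ω).real (Bad (fun ω v => D (env X ω) 0 v) μ κ t) ≤ e) := by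
  have ht := tfae hN hDD hEE hG K hK
  constructor
  · intro h
    refine ⟨⟨7, by norm_num, fun κ h0 h1 => (h κ h0 h1 7 (by norm_num)).1⟩, ?_⟩
    exact (ht.out 1 0).1 fun κ h0 h1 q hq => (h κ h0 h1 q hq).2
  · rintro ⟨⟨q0, hq0, ho⟩, hi⟩ κ h0 h1 q hq
    have h4 := (ht.out 0 3).1 hi
    have h5 := (ht.out 0 1).1 hi
    have hPP : ∀ κ : ℝ, 0 < κ → κ < K → PP X μ κ q0 := by
      intro κ h0 h1
      obtain ⟨e, he, A, hA, hh⟩ := h4 ((κ + K) / 2) (by linarith) (by linarith)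
      obtain ⟨A', hA', hu⟩ := up hG ((κ + K) / 2) A hA e he hh
      exact hOUT2 Ω X hX μ hG.norm κ ((κ + K) / 2) A' q0 h0 (by linarith) (by linarith) hA'
        (by linarith) hu (ho ((κ + K) / 2) (by linarith) (by linarith))
    exact ⟨out_q hREC hOUT3 hX hG.norm K hK q0 hq0 hPP κ q h0 h1 hq,
      h5 κ h0 h1 q hq⟩

end

end Pool.Agent.N662.FP
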