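import Pool.Agent.N662.FP.Cl
import Pool.Agent.N662.FP.Fin3
import Pool.Agent.N189.FN.CUT
import Pool.Agent.N928.FN.End
import Pool.Agent.N946.FN.Three
import Pool.Agent.N249.FN.Step
import Pool.Agent.N195.FN.OUT1
import Pool.Agent.N281.FN.OUT3
import Pool.Agent.N478.FN.OUT2

set_option autoImplicit false
open MeasureTheory ProbabilityTheory Filter Set
open scoped ENNReal Pointwise Topology

namespace Pool.Agent.N662.FP

theorem cTIL2 : S_TIL2 := Pool.Agent.N946.FN.t_TIL2 cME cAE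
theorem cOUT1 : S_OUT1 := Pool.Agent.N195.FN.t_OUT1 cNORM cGE
theorem cOUT3 : S_OUT3 := Pool.Agent.N281.FN.t_OUT3 cOUT1 cAE
theorem cOUT2 : S_OUT2 := Pool.Agent.N478.FN.t_OUT2 cTIL2 cTRI cAE cTIL

/-- one step, given the estimate for two disjoint paths -/
theorem cSTEP (h : S_BB) : S_STEP :=
  Pool.Agent.N249.FN.t_STEP Pool.Agent.N189.FN.t_CUT Pool.Agent.N928.FN.t_END
    Pool.Agent.N946.FN.t_CNTX Pool.Agent.N946.FN.t_WMAX h (Pool.Agent.N928.FN.t_PT cGE cSAW) cAE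

end Pool.Agent.N662.FP
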