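import Pool.Agent.N662.FP.Cl3
import Pool.Agent.N555.FN.BKF
import Pool.Agent.N118.FN.Bkp
import Pool.Agent.N692.FN.Rec

set_option autoImplicit false

namespace Pool.Agent.N662.FP

theorem cBB : S_BB :=
  Pool.Agent.N118.FN.t_BB (Pool.Agent.N118.FN.t_BKP Pool.Agent.N555.FN.t_BKF cAE cGE) cTIL2

theorem cREC : S_REC := Pool.Agent.N692.FN.t_REC (cSTEP cBB) cNORM

end Pool.Agent.N662.FP
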