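import Pool.Agent.N662.FP.Main
import Pool.Agent.N662.FP.Stm2

set_option autoImplicit false
open MeasureTheory ProbabilityTheory Filter Set
open scoped ENNReal Pointwise Topology

namespace Pool.Agent.N662.FP

/-- stretched exponentials are smaller than powers -/
theorem exp_O (c q : ℝ) (hc : 0 < c) :
    Asymptotics.IsBigO atTop (fun t : ℝ => Real.exp (-(t ^ c))) (fun t : ℝ => t ^ (-q)) := by
  have h1 := (isLittleO_exp_neg_mul_rpow_atTop one_pos (-q / c)).comp_tendsto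
    (tendsto_rpow_atTop hc)
  refine (h1.isBigO.congr' ?_ ?_)
  · filter_upwards with t
    simp [Function.comp]
  · filter_upwards [eventually_gt_atTop 0] with t ht
    simp only [Function.comp]
    rw [← Real.rpow_mul ht.le]
    congr 1
    field_simp

theorem tends (hN : S_NORM) (μ : Seminorm ℝ (ℝ × ℝ)) (hμ : ∀ x, μ x = 0 → x = 0) :
    Tendsto (fun v : ℤ × ℤ => μ (em v)) cofinite atTop := by
  refine tendsto_atTop.2 fun b => ?_
  have h := fin_le hN μ hμ b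
  rw [Filter.eventually_cofinite]
  exact h.subset fun v hv => (not_le.1 hv).le

section
variable {Ω : Type} [MeasureSpace Ω] [IsProbabilityMeasure (volume : Measure Ω)]

/-- the three data used below -/
structure Good (T : Ω → ℤ × ℤ → ℝ) (μ : Seminorm ℝ (ℝ × ℝ)) : Prop where
  norm : ∀ x, μ x = 0 → x = 0
  int : ∀ v, Integrable (fun ω => T ω v) (volume : Measure Ω)
  one : ∀ (v : ℤ × ℤ) (r d : ℝ), 0 < r → 0 < d →
    (volume : Measure Ω).real {ω | μ (em v) + r ≤ T ω v} ≤ Real.exp (-(1 + d)) →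
    (∀ u : ℝ, 0 ≤ u → (volume : Measure Ω).real {ω | μ (em v) + r + u ≤ T ω v} ≤
      Real.exp (-(1 + d + d * u / r))) ∧
    ∫ ω, |T ω v - μ (em v)| ∂(volume : Measure Ω) ≤ 2 * (1 + 1 / d) * r

variable {T : Ω → ℤ × ℤ → ℝ} {μ : Seminorm ℝ (ℝ × ℝ)}

theorem pos (μ : Seminorm ℝ (ℝ × ℝ)) (v : ℤ × ℤ) (A κ : ℝ) (hA : 0 < A) :
    0 < A * (1 + μ (em v)) ^ (1 - κ) := by
  have : 0 ≤ μ (em v) := apply_nonneg μ _
  positivity

/-- a number below `1/e` is at most `exp (-(1 + d))` with `d > 0` -/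
theorem ex_d (e : ℝ) (he : e < Real.exp (-1)) : ∃ d : ℝ, 0 < d ∧ e ≤ Real.exp (-(1 + d)) := by
  have h1 : 0 < max e (Real.exp (-2)) := lt_max_of_lt_right (Real.exp_pos _)
  have h2 : max e (Real.exp (-2)) < Real.exp (-1) :=
    max_lt he (Real.exp_lt_exp.2 (by norm_num))
  refine ⟨-1 - Real.log (max e (Real.exp (-2))), ?_, ?_⟩
  · have := (Real.log_lt_iff_lt_exp h1).2 h2
    linarith
  · have : -(1 + (-1 - Real.log (max e (Real.exp (-2))))) = Real.log (max e (Real.exp (-2))) := by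
      ring
    rw [this, Real.exp_log h1]
    exact le_max_left _ _

theorem d_c (hEE : S_EE) (hG : Good T μ) (κ : ℝ) (h0 : 0 < κ) (h1 : κ < 1) (A : ℝ) (hA : 0 < A)
    (e : ℝ) (he : e < Real.exp (-1)) (h : ∀ v : ℤ × ℤ,
      (volume : Measure Ω).real {ω | μ (em v) + A * (1 + μ (em v)) ^ (1 - κ) ≤ T ω v} ≤ e)
    (κ' : ℝ) (h0' : 0 < κ') (h1' : κ' < κ) : ∃ c : ℝ, 0 < c ∧
    ∀ᶠ t : ℝ in atTop, (volume : Measure Ω).real (Bad T μ κ' t) ≤ Real.exp (-(t ^ c)) := by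
  obtain ⟨d, hd, hed⟩ := ex_d e he
  refine hEE Ω T μ hG.norm κ (A * (1 + 1 / (5 * d))) h0 h1 (by positivity) ?_ κ' h0' h1'
  intro v u hu
  have hw := pos μ v A κ hA
  set w := A * (1 + μ (em v)) ^ (1 - κ) with hwd
  have e1 : A * (1 + 1 / (5 * d)) * (1 + μ (em v)) ^ (1 - κ) = w * (1 + 1 / (5 * d)) := by
    rw [hwd]; ring
  rw [e1]
  have h2 := (hG.one v w d hw hd ((h v).trans hed)).1 u hu
  have h3 : w ≤ w * (1 + 1 / (5 * d)) := by
    have : 0 ≤ w * (1 / (5 * d)) := by positivity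
    nlinarith
  refine le_trans (measureReal_mono (μ := (volume : Measure Ω)) (s₂ := {ω | μ (em v) + w + u ≤ T ω v})
    ?_ (measure_ne_top _ _)) (h2.trans (Real.exp_le_exp.2 ?_))
  · intro ω hω
    have h4 : μ (em v) + w * (1 + 1 / (5 * d)) + u ≤ T ω v := hω
    show μ (em v) + w + u ≤ T ω v
    linarith
  · have h5 : w / (5 * d) ≤ w * (1 + 1 / (5 * d)) := by
      have : w * (1 + 1 / (5 * d)) = w + w / (5 * d) := by ring
      rw [this]; linarith
    have h6 : u / (5 * (w * (1 + 1 / (5 * d)))) ≤ u / (5 * (w / (5 * d))) :=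
      div_le_div_of_nonneg_left hu (by positivity) (by linarith)
    have h7 : u / (5 * (w / (5 * d))) = d * u / w := by field_simp
    linarith

theorem d_e (hG : Good T μ) (κ : ℝ) (A : ℝ) (hA : 0 < A)
    (e : ℝ) (he : e < Real.exp (-1)) (h : ∀ v : ℤ × ℤ,
      (volume : Measure Ω).real {ω | μ (em v) + A * (1 + μ (em v)) ^ (1 - κ) ≤ T ω v} ≤ e) :
    ∃ A' : ℝ, ∀ v : ℤ × ℤ, ∫ ω, |T ω v - μ (em v)| ∂(volume : Measure Ω) ≤
      A' * (1 + μ (em v)) ^ (1 - κ) := by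
  obtain ⟨d, hd, hed⟩ := ex_d e he
  refine ⟨2 * (1 + 1 / d) * A, fun v => ?_⟩
  have := (hG.one v _ d (pos μ v A κ hA) hd ((h v).trans hed)).2
  linarith

theorem e_f (hN : S_NORM) (hG : Good T μ) (κ κ2 : ℝ) (hk : κ < κ2) (A : ℝ)
    (h : ∀ v : ℤ × ℤ, ∫ ω, |T ω v - μ (em v)| ∂(volume : Measure Ω) ≤
      A * (1 + μ (em v)) ^ (1 - κ2)) (ε : ℝ) (hε : 0 < ε) :
    Tendsto (fun v : ℤ × ℤ => (volume : Measure Ω).real
      {ω | ε * (1 + μ (em v)) ^ (1 - κ) ≤ |T ω v - μ (em v)|}) cofinite (𝓝 0) := by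
  have h1 : Tendsto (fun v : ℤ × ℤ => A / ε * (1 + μ (em v)) ^ (-(κ2 - κ))) cofinite (𝓝 0) := by
    have h2 : Tendsto (fun v : ℤ × ℤ => 1 + μ (em v)) cofinite atTop :=
      tendsto_atTop_add_const_left _ _ (tends hN μ hG.norm)
    have h3 := (tendsto_rpow_neg_atTop (sub_pos.2 hk)).comp h2
    simpa using h3.const_mul (A / ε)
  refine squeeze_zero (fun v => measureReal_nonneg) (fun v => ?_) h1
  refine (mk _ (hG.int v) (μ (em v)) _ (pos μ v ε κ hε)).trans ?_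
  have hm : 0 < 1 + μ (em v) := by have := apply_nonneg μ (em v); linarith
  rw [div_le_iff₀ (pos μ v ε κ hε)]
  refine (h v).trans (le_of_eq ?_)
  have : (1 + μ (em v)) ^ (1 - κ2) = (1 + μ (em v)) ^ (-(κ2 - κ)) * (1 + μ (em v)) ^ (1 - κ) := by
    rw [← Real.rpow_add hm]; congr 1; ring
  rw [this]
  field_simp

theorem f_d (hG : Good T μ) (κ : ℝ) (hκ1 : κ < 1)
    (h : ∀ᶠ v : ℤ × ℤ in cofinite, (volume : Measure Ω).real
      {ω | (1 + μ (em v)) ^ (1 - κ) ≤ |T ω v - μ (em v)|} ≤ 1 / 8) :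
    ∃ A : ℝ, 0 < A ∧ ∀ v : ℤ × ℤ,
      (volume : Measure Ω).real {ω | μ (em v) + A * (1 + μ (em v)) ^ (1 - κ) ≤ T ω v} ≤ 1 / 8 := by
  rw [Filter.eventually_cofinite] at h
  set F := h.toFinset with hF
  set B : ℤ × ℤ → ℝ := fun v => 8 * (∫ ω, |T ω v - μ (em v)| ∂(volume : Measure Ω)) + 1 with hB
  have hI : ∀ v, 0 ≤ ∫ ω, |T ω v - μ (em v)| ∂(volume : Measure Ω) :=
    fun v => integral_nonneg fun ω => abs_nonneg _
  have hB0 : ∀ v, 1 ≤ B v := fun v => by have := hI v; simp only [hB]; linarith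
  have hS : 0 ≤ ∑ v ∈ F, B v := Finset.sum_nonneg fun v _ => zero_le_one.trans (hB0 v)
  refine ⟨1 + ∑ v ∈ F, B v, by linarith, fun v => ?_⟩
  set A := 1 + ∑ v ∈ F, B v with hA
  have hm1 : 1 ≤ 1 + μ (em v) := by have := apply_nonneg μ (em v); linarith
  have hp1 : 1 ≤ (1 + μ (em v)) ^ (1 - κ) := Real.one_le_rpow hm1 (by linarith)
  have hA1 : 1 ≤ A := by linarith
  by_cases hv : v ∈ F
  · have hBA : B v ≤ A := by
      have := Finset.single_le_sum (f := B) (fun w _ => zero_le_one.trans (hB0 w)) hv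
      linarith
    have hpos : 0 < B v := by linarith [hB0 v]
    refine le_trans (measureReal_mono (μ := (volume : Measure Ω)) (s₂ := {ω | B v ≤ |T ω v - μ (em v)|}) ?_ (measure_ne_top _ _)) ?_
    · intro ω hω
      have h1 : μ (em v) + A * (1 + μ (em v)) ^ (1 - κ) ≤ T ω v := hω
      have h2 : B v ≤ A * (1 + μ (em v)) ^ (1 - κ) := by nlinarith
      show B v ≤ |T ω v - μ (em v)|
      exact (by linarith : B v ≤ T ω v - μ (em v)).trans (le_abs_self _)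
    · refine (mk _ (hG.int v) (μ (em v)) _ hpos).trans ?_
      rw [div_le_iff₀ hpos]
      simp only [hB]
      linarith
  · have h1 : (volume : Measure Ω).real
        {ω | (1 + μ (em v)) ^ (1 - κ) ≤ |T ω v - μ (em v)|} ≤ 1 / 8 := by
      by_contra hc
      exact hv (h.mem_toFinset.2 hc)
    refine le_trans (measureReal_mono ?_) h1
    intro ω hω
    have h2 : μ (em v) + A * (1 + μ (em v)) ^ (1 - κ) ≤ T ω v := hω
    show (1 + μ (em v)) ^ (1 - κ) ≤ |T ω v - μ (em v)|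
    refine le_trans ?_ (le_abs_self _)
    nlinarith

theorem eighth : (1 / 8 : ℝ) < Real.exp (-1) := by
  rw [Real.exp_neg, ← one_div]
  exact one_div_lt_one_div_of_lt (Real.exp_pos _) (by linarith [Real.exp_one_lt_d9])

/-- the equivalence -/
theorem tfae (hN : S_NORM) (hDD : S_DD2) (hEE : S_EE) (hG : Good T μ) (K : ℝ) (hK1 : K < 1) :
    List.TFAE [
      ∀ κ : ℝ, 0 < κ → κ < K → ∃ e : ℝ, e < Real.exp (-1) ∧
        ∀ᶠ t : ℝ in atTop, (volume : Measure Ω).real (Bad T μ κ t) ≤ e,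
      ∀ κ : ℝ, 0 < κ → κ < K → ∀ q : ℝ, 0 < q → Asymptotics.IsBigO atTop
        (fun t : ℝ => (volume : Measure Ω).real (Bad T μ κ t)) (fun t : ℝ => t ^ (-q)),
      ∀ κ : ℝ, 0 < κ → κ < K → ∃ c : ℝ, 0 < c ∧
        ∀ᶠ t : ℝ in atTop, (volume : Measure Ω).real (Bad T μ κ t) ≤ Real.exp (-(t ^ c)),
      ∀ κ : ℝ, 0 < κ → κ < K → ∃ e : ℝ, e < Real.exp (-1) ∧ ∃ A : ℝ, 0 < A ∧ ∀ v : ℤ × ℤ,
        (volume : Measure Ω).real
          {ω | μ (em v) + A * (1 + μ (em v)) ^ (1 - κ) ≤ T ω v} ≤ e,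
      ∀ κ : ℝ, 0 < κ → κ < K → ∃ A : ℝ, ∀ v : ℤ × ℤ,
        ∫ ω, |T ω v - μ (em v)| ∂(volume : Measure Ω) ≤ A * (1 + μ (em v)) ^ (1 - κ),
      ∀ κ : ℝ, 0 < κ → κ < K → ∀ ε : ℝ, 0 < ε → Tendsto (fun v : ℤ × ℤ =>
        (volume : Measure Ω).real {ω | ε * (1 + μ (em v)) ^ (1 - κ) ≤ |T ω v - μ (em v)|})
        cofinite (𝓝 0)] := by
  tfae_have 3 → 2 := by
    intro h κ h0 h1 q hq
    obtain ⟨c, hc, hcc⟩ := h κ h0 h1
    refine (Asymptotics.IsBigO.of_bound 1 ?_).trans (exp_O c q hc)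
    filter_upwards [hcc] with t ht
    rw [Real.norm_of_nonneg measureReal_nonneg, Real.norm_of_nonneg (Real.exp_pos _).le, one_mul]
    exact ht
  tfae_have 2 → 1 := by
    intro h κ h0 h1
    refine ⟨1 / 8, eighth, ?_⟩
    have h2 := h κ h0 h1 1 one_pos
    have h3 : Tendsto (fun t : ℝ => t ^ (-(1 : ℝ))) atTop (𝓝 0) := tendsto_rpow_neg_atTop one_pos
    have h4 := h2.trans_tendsto h3
    have h5 := h4.eventually (gt_mem_nhds (by norm_num : (0 : ℝ) < 1 / 8))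
    filter_upwards [h5] with t ht
    exact ht.le
  tfae_have 1 → 4 := by
    intro h κ h0 h1
    obtain ⟨e, he, hh⟩ := h κ h0 h1
    refine ⟨max e (Real.exp (-2)), max_lt he (Real.exp_lt_exp.2 (by norm_num)), ?_⟩
    refine hDD Ω T μ hG.norm hG.int κ _ h0 (h1.trans hK1)
      (lt_max_of_lt_right (Real.exp_pos _)) ?_
    filter_upwards [hh] with t ht
    exact ht.trans (le_max_left _ _)
  tfae_have 4 → 3 := by
    intro h κ h0 h1
    obtain ⟨e, he, A, hA, hh⟩ := h ((κ + K) / 2) (by linarith) (by linarith)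
    exact d_c hEE hG ((κ + K) / 2) (by linarith) (by linarith) A hA e he hh κ h0 (by linarith)
  tfae_have 4 → 5 := by
    intro h κ h0 h1
    obtain ⟨e, he, A, hA, hh⟩ := h κ h0 h1
    exact d_e hG κ A hA e he hh
  tfae_have 5 → 6 := by
    intro h κ h0 h1 ε hε
    obtain ⟨A, hh⟩ := h ((κ + K) / 2) (by linarith) (by linarith)
    exact e_f hN hG κ ((κ + K) / 2) (by linarith) A hh ε hε
  tfae_have 6 → 4 := by
    intro h κ h0 h1
    refine ⟨1 / 8, eighth, f_d hG κ (h1.trans hK1) ?_⟩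
    have h2 := (h κ h0 h1 1 one_pos).eventually (gt_mem_nhds (by norm_num : (0 : ℝ) < 1 / 8))
    filter_upwards [h2] with v hv
    simpa using hv.le
  tfae_finish

/-- one exponent -/
theorem oneExp (hDD : S_DD2) (hEE : S_EE) (hG : Good T μ) (κ κ' e : ℝ) (h0' : 0 < κ')
    (h1' : κ' < κ) (h1 : κ < 1) (he : e < Real.exp (-1))
    (h : ∀ᶠ t : ℝ in atTop, (volume : Measure Ω).real (Bad T μ κ t) ≤ e) : ∃ c : ℝ, 0 < c ∧
    ∀ᶠ t : ℝ in atTop, (volume : Measure Ω).real (Bad T μ κ' t) ≤ Real.exp (-(t ^ c)) := by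
  obtain ⟨A, hA, hh⟩ := hDD Ω T μ hG.norm hG.int κ (max e (Real.exp (-2))) (h0'.trans h1') h1
    (lt_max_of_lt_right (Real.exp_pos _))
    (by filter_upwards [h] with t ht; exact ht.trans (le_max_left _ _))
  exact d_c hEE hG κ (h0'.trans h1') h1 A hA _
    (max_lt he (Real.exp_lt_exp.2 (by norm_num))) hh κ' h0' h1'

end

end Pool.Agent.N662.FP
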