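import Pool.Agent.N662.FP.Stm

set_option autoImplicit false
open MeasureTheory ProbabilityTheory Filter Set
open scoped ENNReal Pointwise Topology

namespace Pool.Agent.N662.FP

section
variable {Ω : Type} [MeasureSpace Ω] [IsProbabilityMeasure (volume : Measure Ω)]
variable {X : Sym2 (ℤ × ℤ) → Ω → ℝ}

/-- the one-point lemma for the passage time -/
theorem onePoint (hLC : S_LC) (hINT : S_INT) (hFAT : S_FAT) (hCORE : S_CORE) (hME : S_ME)
    (hAE : S_AE) (hX : Iid X) (v : ℤ × ℤ) (m r : ℝ) (hr : 0 < r)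
    (hlim : ∀ᵐ ω ∂(volume : Measure Ω),
      Tendsto (fun n : ℕ => D (env X ω) 0 ((n : ℤ) • v) / (n : ℝ)) atTop (𝓝 m))
    (h8 : (volume : Measure Ω).real {ω | m + r ≤ D (env X ω) 0 v} ≤ 1 / 8) :
    (∀ u : ℝ, 0 ≤ u →
      (volume : Measure Ω).real {ω | m + r + u ≤ D (env X ω) 0 v} ≤ Real.exp (-(u / (5 * r)))) ∧
    ∫ ω, |D (env X ω) 0 v - m| ∂(volume : Measure Ω) ≤ 4 * r := by
  set T' : Ω → ℝ := fun ω => D (fun e => max (env X ω e) 0) 0 v with hT'
  have hmeas : Measurable T' :=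
    (hME 0 v).comp (measurable_pi_iff.2 fun e => hX.meas e)
  have hae : ∀ᵐ ω ∂(volume : Measure Ω), D (env X ω) 0 v = T' ω := by
    filter_upwards [hAE Ω X hX] with ω h
    have h1 : env X ω = fun e => max (env X ω e) 0 := funext fun e => (max_eq_left (h e)).symm
    exact congrArg (fun y => D y 0 v) h1
  have hset : ∀ t : ℝ, (volume : Measure Ω).real {ω | t ≤ T' ω} =
      (volume : Measure Ω).real {ω | t ≤ D (env X ω) 0 v} := by
    intro t
    refine measureReal_congr ?_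
    filter_upwards [hae] with ω h
    show (t ≤ T' ω) = (t ≤ D (env X ω) 0 v)
    rw [h]
  have hint : Integrable T' (volume : Measure Ω) :=
    (hINT Ω X hX 0 v).congr hae
  have hmean : m ≤ ∫ ω, T' ω ∂(volume : Measure Ω) := by
    rw [← integral_congr_ae hae]
    exact hFAT Ω X hX v m hlim
  obtain ⟨h1, h2⟩ := hCORE Ω T' hmeas hint m r hr
    (by intro s t; rw [hset, hset, hset]; exact hLC Ω X hX 0 v s t) hmean
    (by rw [hset]; exact h8)
  refine ⟨fun u hu => ?_, ?_⟩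
  · rw [← hset]; exact h1 u hu
  · refine le_trans (le_of_eq ?_) h2
    refine integral_congr_ae ?_
    filter_upwards [hae] with ω h
    rw [h]

end

/-- finitely many lattice points of bounded norm -/
theorem fin_le (hN : S_NORM) (μ : Seminorm ℝ (ℝ × ℝ)) (hμ : ∀ x, μ x = 0 → x = 0) (M : ℝ) :
    {v : ℤ × ℤ | μ (em v) ≤ M}.Finite := by
  obtain ⟨c, C, hc, hC, h⟩ := hN μ hμ
  refine Set.Finite.subset
    ((Finset.Icc (-⌈M / c⌉) ⌈M / c⌉ ×ˢ Finset.Icc (-⌈M / c⌉) ⌈M / c⌉ : Finset (ℤ × ℤ)).finite_toSet)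
    ?_
  intro v hv
  have h1 := (h (em v)).1.trans hv
  have h2 : max |(v.1 : ℝ)| |(v.2 : ℝ)| ≤ M / c := by
    rw [le_div_iff₀ hc, mul_comm]; exact h1
  have h3 : |(v.1 : ℝ)| ≤ ((⌈M / c⌉ : ℤ) : ℝ) := (le_max_left _ _).trans (h2.trans (Int.le_ceil _))
  have h4 : |(v.2 : ℝ)| ≤ ((⌈M / c⌉ : ℤ) : ℝ) := (le_max_right _ _).trans (h2.trans (Int.le_ceil _))
  have h5 : |v.1| ≤ ⌈M / c⌉ := by exact_mod_cast h3
  have h6 : |v.2| ≤ ⌈M / c⌉ := by exact_mod_cast h4
  simp only [Finset.coe_product, Finset.coe_Icc, mem_prod, mem_Icc]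
  exact ⟨abs_le.1 h5, abs_le.1 h6⟩

/-- Markov's inequality -/
theorem mk {Ω : Type} [MeasureSpace Ω] [IsProbabilityMeasure (volume : Measure Ω)] (f : Ω → ℝ)
    (hf : Integrable f (volume : Measure Ω)) (m e : ℝ) (he : 0 < e) :
    (volume : Measure Ω).real {ω | e ≤ |f ω - m|} ≤ (∫ ω, |f ω - m| ∂(volume : Measure Ω)) / e := by
  have hi : Integrable (fun ω => |f ω - m|) (volume : Measure Ω) :=
    (hf.sub (integrable_const m)).abs
  have h := mul_meas_ge_le_integral_of_nonneg (μ := (volume : Measure Ω))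
    (f := fun ω => |f ω - m|) (Eventually.of_forall fun ω => abs_nonneg _) hi e
  rw [le_div_iff₀ he, mul_comm]
  exact h

end Pool.Agent.N662.FP
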