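import Pool.Agent.N662.FP.Fin

set_option autoImplicit false
open MeasureTheory ProbabilityTheory Filter Set
open scoped ENNReal Pointwise Topology

namespace Pool.Agent.N662.FP

section
variable {Ω : Type} [MeasureSpace Ω] [IsProbabilityMeasure (volume : Measure Ω)]
variable {X : Sym2 (ℤ × ℤ) → Ω → ℝ}

/-- the one-point lemma for the passage time, threshold `1/e` -/
theorem onePoint2 (hLC : S_LC) (hINT : S_INT) (hFAT : S_FAT) (hCORE : S_CORE2) (hME : S_ME)
    (hAE : S_AE) (hX : Iid X) (v : ℤ × ℤ) (m r d : ℝ) (hr : 0 < r) (hd : 0 < d)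
    (hlim : ∀ᵐ ω ∂(volume : Measure Ω),
      Tendsto (fun n : ℕ => D (env X ω) 0 ((n : ℤ) • v) / (n : ℝ)) atTop (𝓝 m))
    (h8 : (volume : Measure Ω).real {ω | m + r ≤ D (env X ω) 0 v} ≤ Real.exp (-(1 + d))) :
    (∀ u : ℝ, 0 ≤ u →
      (volume : Measure Ω).real {ω | m + r + u ≤ D (env X ω) 0 v} ≤
        Real.exp (-(1 + d + d * u / r))) ∧
    ∫ ω, |D (env X ω) 0 v - m| ∂(volume : Measure Ω) ≤ 2 * (1 + 1 / d) * r := by
  set T' : Ω → ℝ := fun ω => D (fun e => max (env X ω e) 0) 0 v with hT'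
  have hmeas : Measurable T' :=
    (hME 0 v).comp (measurable_pi_iff.2 fun e => hX.meas e)
  have hae : ∀ᵐ ω ∂(volume : Measure Ω), D (env X ω) 0 v = T' ω := by
    filter_upwards [hAE Ω X hX] with ω h
    have h1 : env X ω = fun e => max (env X ω e) 0 := funext fun e => (max_eq_left (h e)).symm
    exact congrArg (fun y => D y 0 v) h1
  have hset : ∀ t : ℝ, (volume : Measure Ω).real {ω | t ≤ T' ω} =
      (volume : Measure Ω).real {ω | t ≤ D (env X ω) 0 v} := by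
    intro t
    refine measureReal_congr ?_
    filter_upwards [hae] with ω h
    show (t ≤ T' ω) = (t ≤ D (env X ω) 0 v)
    rw [h]
  have hint : Integrable T' (volume : Measure Ω) :=
    (hINT Ω X hX 0 v).congr hae
  have hmean : m ≤ ∫ ω, T' ω ∂(volume : Measure Ω) := by
    rw [← integral_congr_ae hae]
    exact hFAT Ω X hX v m hlim
  obtain ⟨h1, h2⟩ := hCORE Ω T' hmeas hint m r d hr hd
    (by intro s t; rw [hset, hset, hset]; exact hLC Ω X hX 0 v s t) hmean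
    (by rw [hset]; exact h8)
  refine ⟨fun u hu => ?_, ?_⟩
  · rw [← hset]; exact h1 u hu
  · refine le_trans (le_of_eq ?_) h2
    refine integral_congr_ae ?_
    filter_upwards [hae] with ω h
    rw [h]

/-- weighted log-concavity of the upper tail -/
theorem tailLC (hLC : S_LC) (hFULL : S_FULL) (hX : Iid X) (v : ℤ × ℤ) (s t θ : ℝ) (h0 : 0 < θ)
    (h1 : θ < 1) :
    (volume : Measure Ω).real {ω | s ≤ D (env X ω) 0 v} ^ θ *
      (volume : Measure Ω).real {ω | t ≤ D (env X ω) 0 v} ^ (1 - θ) ≤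
    (volume : Measure Ω).real {ω | θ * s + (1 - θ) * t ≤ D (env X ω) 0 v} := by
  set G : ℝ → ℝ := fun t => (volume : Measure Ω).real {ω | t ≤ D (env X ω) 0 v} with hG
  have hG0 : ∀ t, 0 ≤ G t := fun t => measureReal_nonneg
  have hGa : Antitone G := by
    intro a b hab
    exact measureReal_mono (fun ω (h : b ≤ _) => hab.trans h) (measure_ne_top _ _)
  have hGm : ∀ s t : ℝ, G s * G t ≤ (G ((s + t) / 2)) ^ 2 := fun s t => hLC Ω X hX 0 v s t
  show G s ^ θ * G t ^ (1 - θ) ≤ G (θ * s + (1 - θ) * t)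
  rcases le_total s t with h | h
  · exact hFULL G hG0 hGa hGm s t θ h h0 h1
  · have h2 := hFULL G hG0 hGa hGm t s (1 - θ) h (by linarith) (by linarith)
    have e1 : 1 - (1 - θ) = θ := by ring
    rw [e1] at h2
    rw [mul_comm, add_comm]
    exact h2

/-- the time constant is a norm -/
theorem isNorm (hSUBZ : S_SUBZ) (hSYMZ : S_SYMZ) (hPOSZ : S_POSZ) (hEXT : S_EXT) (hX : Iid X)
    (μ : ℝ × ℝ → ℝ) (hhom : ∀ (x : ℝ × ℝ) (c : ℝ), 0 ≤ c → μ (c • x) = c * μ x)
    (hcont : Continuous μ)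
    (hlim : ∀ z : ℤ × ℤ, ∀ᵐ ω ∂(volume : Measure Ω),
      Tendsto (fun n : ℕ => D (env X ω) 0 ((n : ℤ) • z) / (n : ℝ)) atTop (𝓝 (μ (em z)))) :
    ∃ p : Seminorm ℝ (ℝ × ℝ), (∀ x, p x = μ x) ∧ ∀ x, p x = 0 → x = 0 :=
  hEXT μ (1 / 25) (by norm_num) hhom hcont
    (fun z w => hSUBZ Ω X hX z w _ _ _ (hlim z) (hlim w) (hlim (z + w)))
    (fun z => (hSYMZ Ω X hX z _ _ (hlim z) (hlim (-z))).symm)
    (fun z => hPOSZ Ω X hX z _ (hlim z))

end

end Pool.Agent.N662.FP
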